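import Pool.Agent.helper74.MQ.Spec

/-!
# Project mq, module ADJ: adjacent prongs give a strip (helper92)
-/

set_option autoImplicit false

open Complex Metric Set Filter Topology MeasureTheory MPS

noncomputable section

namespace MQ

/-- identity theorem on an open preconnected set, agreement near one point -/
theorem ADJ_id1 {f g : ℂ → ℂ} {U : Set ℂ} (hU : IsOpen U) (hc : IsPreconnected U)
    (hf : DifferentiableOn ℂ f U) (hg : DifferentiableOn ℂ g U) {z₀ : ℂ} (hz : z₀ ∈ U)
    (h : f =ᶠ[𝓝 z₀] g) : EqOn f g U :=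
  (hf.analyticOnNhd hU).eqOn_of_preconnected_of_eventuallyEq (hg.analyticOnNhd hU) hc hz h

/-- identity theorem, agreement on a horizontal segment -/
theorem ADJ_id2 {f g : ℂ → ℂ} {U : Set ℂ} (hU : IsOpen U) (hc : IsPreconnected U)
    (hf : DifferentiableOn ℂ f U) (hg : DifferentiableOn ℂ g U) {z₀ : ℂ} (hz : z₀ ∈ U)
    (h : ∀ᶠ t : ℝ in 𝓝 0, f (z₀ + t) = g (z₀ + t)) : EqOn f g U := by
  apply (hf.analyticOnNhd hU).eqOn_of_preconnected_of_frequently_eq (hg.analyticOnNhd hU) hc hz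
  have h1 : Tendsto (fun t : ℝ => z₀ + (t : ℂ)) (𝓝[≠] 0) (𝓝[≠] z₀) := by
    apply tendsto_nhdsWithin_of_tendsto_nhds_of_eventually_within
    · have : Tendsto (fun t : ℝ => z₀ + (t : ℂ)) (𝓝 0) (𝓝 (z₀ + ((0 : ℝ) : ℂ))) := by
        apply Continuous.tendsto
        fun_prop
      rw [Complex.ofReal_zero, add_zero] at this
      exact this.mono_left nhdsWithin_le_nhds
    · filter_upwards [self_mem_nhdsWithin] with t ht
      intro h0
      apply ht
      have h0' : z₀ + (t : ℂ) = z₀ := h0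
      have : (t : ℂ) = 0 := by linear_combination h0'
      exact_mod_cast this
  have h2 : ∀ᶠ t : ℝ in 𝓝[≠] 0, f (z₀ + t) = g (z₀ + t) := h.filter_mono nhdsWithin_le_nhds
  exact h1.frequently h2.frequently

/-- an injective holomorphic map has a holomorphic inverse -/
theorem ADJ_inv {h : ℂ → ℂ} {U : Set ℂ} (hU : IsOpen U) (hd : DifferentiableOn ℂ h U)
    (hi : InjOn h U) {g : ℂ → ℂ} (hg : ∀ z ∈ U, g (h z) = z) :
    ∀ z ∈ U, deriv h z ≠ 0 ∧ HasDerivAt g (deriv h z)⁻¹ (h z) := by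
  have han := hd.analyticOnNhd hU
  -- open
  have hopen : ∀ z ∈ U, 𝓝 (h z) ≤ map h (𝓝 z) := by
    intro z hz
    rcases (han z hz).eventually_constant_or_nhds_le_map_nhds with h1 | h1
    · exfalso
      have h2 : ∀ᶠ w in 𝓝[≠] z, w ∈ U ∧ h w = h z ∧ w ≠ z := by
        filter_upwards [nhdsWithin_le_nhds (hU.mem_nhds hz), nhdsWithin_le_nhds h1,
          self_mem_nhdsWithin] with w w1 w2 w3
        exact ⟨w1, w2, w3⟩
      obtain ⟨w, w1, w2, w3⟩ := h2.exists
      exact w3 (hi w1 hz w2)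
    · exact h1
  have hcont : ∀ z ∈ U, Tendsto g (𝓝 (h z)) (𝓝 z) := by
    intro z hz V hV
    have h1 : V ∩ U ∈ 𝓝 z := inter_mem hV (hU.mem_nhds hz)
    have h2 : h '' (V ∩ U) ∈ 𝓝 (h z) := hopen z hz (image_mem_map h1)
    rw [mem_map]
    filter_upwards [h2] with v hv
    obtain ⟨w, hw, rfl⟩ := hv
    show g (h w) ∈ V
    rw [hg w hw.2]
    exact hw.1
  have hcont' : ∀ z ∈ U, ContinuousAt g (h z) := by
    intro z hz
    unfold ContinuousAt
    rw [hg z hz]
    exact hcont z hz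
  have himg : ∀ z ∈ U, ∀ᶠ v in 𝓝 (h z), ∃ w ∈ U, h w = v := by
    intro z hz
    have h2 : h '' U ∈ 𝓝 (h z) := hopen z hz (image_mem_map (hU.mem_nhds hz))
    filter_upwards [h2] with v hv
    exact hv
  have hder : ∀ z ∈ U, deriv h z ≠ 0 → HasDerivAt g (deriv h z)⁻¹ (h z) := by
    intro z hz hne
    have h3 : HasDerivAt h (deriv h z) (g (h z)) := by
      rw [hg z hz]
      exact (hd.differentiableAt (hU.mem_nhds hz)).hasDerivAt
    refine HasDerivAt.of_local_left_inverse (hcont' z hz) h3 hne ?_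
    filter_upwards [himg z hz] with v hv
    obtain ⟨w, hw, rfl⟩ := hv
    rw [hg w hw]
  have hmain : ∀ z ∈ U, deriv h z ≠ 0 := by
    intro z hz h0
    have hdan : AnalyticAt ℂ (deriv h) z := (han z hz).deriv
    rcases hdan.eventually_eq_zero_or_eventually_ne_zero with h1 | h1
    · -- constant near z
      obtain ⟨ε, hε, hb⟩ := Metric.eventually_nhds_iff_ball.1 (h1.and (hU.mem_nhds hz))
      have h2 : ∀ w ∈ ball z ε, h w = h z := by
        intro w hw
        have h3 : DifferentiableOn ℂ h (ball z ε) := hd.mono fun v hv => (hb v hv).2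
        exact isOpen_ball.is_const_of_deriv_eq_zero (convex_ball z ε).isPreconnected h3
          (fun v hv => (hb v hv).1) hw (mem_ball_self hε)
      have h3 : (z + (ε / 2 : ℝ)) ∈ ball z ε := by
        rw [mem_ball, dist_eq_norm, add_sub_cancel_left, Complex.norm_real, Real.norm_of_nonneg
          (by positivity)]
        linarith
      have h4 := hi (hb _ h3).2 hz (h2 _ h3)
      have h5 : ((ε / 2 : ℝ) : ℂ) = 0 := by linear_combination h4
      have h6 : ε / 2 = 0 := by exact_mod_cast h5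
      linarith
    · have h2 : ∀ᶠ v in 𝓝[≠] (h z), DifferentiableAt ℂ g v := by
        have h3 : ∀ᶠ w in 𝓝 z, w ≠ z → deriv h w ≠ 0 := by
          rw [eventually_nhdsWithin_iff] at h1
          filter_upwards [h1] with w hw hw'
          exact hw hw'
        have h4 := (hcont z hz).eventually h3
        rw [eventually_nhdsWithin_iff]
        filter_upwards [h4, himg z hz] with v hv hv' hv''
        obtain ⟨w, hw, rfl⟩ := hv'
        rw [hg w hw] at hv
        have h5 : w ≠ z := by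
          intro h6
          apply hv''
          rw [h6]
          rfl
        exact (hder w hw (hv h5)).differentiableAt
      have h3 := Complex.analyticAt_of_differentiable_on_punctured_nhds_of_continuousAt h2
        (hcont' z hz)
      have h4 : HasDerivAt (fun w => g (h w)) (deriv g (h z) * deriv h z) z :=
        h3.differentiableAt.hasDerivAt.comp z (hd.differentiableAt (hU.mem_nhds hz)).hasDerivAt
      have h5 : (fun w => g (h w)) =ᶠ[𝓝 z] fun w => w := by
        filter_upwards [hU.mem_nhds hz] with w hw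
        exact hg w hw
      have h6 : HasDerivAt (fun w : ℂ => w) (deriv g (h z) * deriv h z) z :=
        h4.congr_of_eventuallyEq h5.symm
      have h7 := h6.unique (hasDerivAt_id' z)
      rw [h0, mul_zero] at h7
      exact zero_ne_one h7
  intro z hz
  exact ⟨hmain z hz, hder z hz (hmain z hz)⟩

/-- the exponent -/
def ADJ_p (m : ℕ) : ℝ := 2 / ((m : ℝ) + 2)

/-- the model map -/
def ADJ_F (m : ℕ) (a : ℕ) (w : ℂ) : ℂ :=
  Complex.exp ((ADJ_p m : ℂ) * (Complex.log (I * w) + Real.pi / 2 * I) +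
    2 * Real.pi * I * (a : ℂ) / ((m : ℂ) + 2))

/-- its domain -/
def ADJ_D : Set ℂ := {w | I * w ∈ slitPlane}

theorem ADJ_D_open : IsOpen ADJ_D := by
  unfold ADJ_D
  exact isOpen_slitPlane.preimage (by fun_prop : Continuous fun w : ℂ => I * w)

theorem ADJ_D_im {w : ℂ} (h : w.im < 0) : w ∈ ADJ_D := by
  left
  simp only [Complex.mul_re, I_re, I_im]
  linarith

theorem ADJ_D_re {w : ℂ} (h : w.re ≠ 0) : w ∈ ADJ_D := by
  right
  simp only [Complex.mul_im, I_re, I_im]
  intro h0
  apply h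
  linarith

theorem ADJ_D_ne {w : ℂ} (h : w ∈ ADJ_D) : w ≠ 0 := by
  rintro rfl
  have h' : I * (0 : ℂ) ∈ slitPlane := h
  rw [mul_zero] at h'
  exact zero_notMem_slitPlane h'

theorem ADJ_m2 (m : ℕ) : ((m : ℂ) + 2) ≠ 0 := by
  have : ((m + 2 : ℕ) : ℂ) ≠ 0 := by
    rw [Nat.cast_ne_zero]
    omega
  push_cast at this
  exact this

theorem ADJ_pc (m : ℕ) : ((ADJ_p m : ℝ) : ℂ) = 2 / ((m : ℂ) + 2) := by
  unfold ADJ_p
  push_cast
  rfl

theorem ADJ_F_der (m a : ℕ) {w : ℂ} (h : w ∈ ADJ_D) :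
    HasDerivAt (ADJ_F m a) (ADJ_F m a w * ((ADJ_p m : ℂ) / w)) w := by
  have hw := ADJ_D_ne h
  have h1 : HasDerivAt (fun w : ℂ => I * w) I w := by
    simpa using (hasDerivAt_id w).const_mul I
  have h2 : HasDerivAt (fun w : ℂ => Complex.log (I * w)) (1 / w) w := by
    have h3 := h1.clog h
    have h4 : I / (I * w) = 1 / w := by
      field_simp [I_ne_zero]
    rw [h4] at h3
    exact h3
  have h3 := (((h2.add_const (Real.pi / 2 * I)).const_mul (ADJ_p m : ℂ)).add_const
    (2 * Real.pi * I * (a : ℂ) / ((m : ℂ) + 2))).cexp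
  exact h3.congr_deriv (by unfold ADJ_F; ring)

theorem ADJ_F_pow (m a : ℕ) {w : ℂ} (h : w ∈ ADJ_D) : ADJ_F m a w ^ (m + 2) = w ^ 2 := by
  have hw := ADJ_D_ne h
  have hIw : I * w ≠ 0 := mul_ne_zero I_ne_zero hw
  unfold ADJ_F
  rw [← Complex.exp_nat_mul, ADJ_pc]
  have hm := ADJ_m2 m
  have h1 : ((m + 2 : ℕ) : ℂ) * (2 / ((m : ℂ) + 2) * (Complex.log (I * w) + Real.pi / 2 * I) +
      2 * Real.pi * I * (a : ℂ) / ((m : ℂ) + 2)) =
      (2 : ℕ) * Complex.log (I * w) + Real.pi * I + (a : ℕ) * (2 * Real.pi * I) := by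
    push_cast
    field_simp
  rw [h1, Complex.exp_add, Complex.exp_add, Complex.exp_nat_mul, Complex.exp_log hIw,
    Complex.exp_pi_mul_I, Complex.exp_nat_mul_two_pi_mul_I, mul_pow, I_sq]
  ring

theorem ADJ_F_eq (m a : ℕ) {w : ℂ} (h : w ∈ ADJ_D) :
    ((m : ℂ) + 2) ^ 2 * ADJ_F m a w ^ m * (ADJ_F m a w * ((ADJ_p m : ℂ) / w)) ^ 2 = 4 := by
  have hw := ADJ_D_ne h
  have hm := ADJ_m2 m
  have h1 := ADJ_F_pow m a h
  rw [ADJ_pc]
  have h2 : ((m : ℂ) + 2) ^ 2 * ADJ_F m a w ^ m *
      (ADJ_F m a w * (2 / ((m : ℂ) + 2) / w)) ^ 2 = 4 * ADJ_F m a w ^ (m + 2) / w ^ 2 := by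
    rw [pow_add]
    field_simp
    ring
  rw [h2, h1]
  field_simp

theorem ADJ_F_norm (m a : ℕ) (w : ℂ) (hw : w ≠ 0) :
    ‖ADJ_F m a w‖ = Real.exp (ADJ_p m * Real.log ‖w‖) := by
  unfold ADJ_F
  rw [Complex.norm_exp]
  congr 1
  have h1 : (2 * Real.pi * I * (a : ℂ) / ((m : ℂ) + 2)) =
      ((2 * Real.pi * a / ((m : ℝ) + 2) : ℝ) : ℂ) * I := by
    push_cast
    ring
  have h2 : (Real.pi / 2 * I : ℂ) = ((Real.pi / 2 : ℝ) : ℂ) * I := by
    push_cast
    ring
  rw [h1, h2, Complex.add_re, Complex.re_ofReal_mul, Complex.re_ofReal_mul, Complex.add_re,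
    Complex.re_ofReal_mul, I_re, Complex.log_re, norm_mul, Complex.norm_I, one_mul]
  ring

theorem ADJ_p_pos (m : ℕ) : 0 < ADJ_p m := by
  unfold ADJ_p
  positivity

theorem ADJ_small (m a : ℕ) {s : ℝ} (hs : 0 < s) : ∃ r₁ > (0 : ℝ), ∀ w : ℂ, w ≠ 0 → ‖w‖ < r₁ →
    ‖ADJ_F m a w‖ < s := by
  refine ⟨Real.exp (Real.log s / ADJ_p m), Real.exp_pos _, fun w hw hr => ?_⟩
  rw [ADJ_F_norm m a w hw]
  have h1 : Real.log ‖w‖ < Real.log s / ADJ_p m := by
    rw [← Real.log_exp (Real.log s / ADJ_p m)]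
    exact Real.log_lt_log (norm_pos_iff.2 hw) hr
  have h2 : ADJ_p m * Real.log ‖w‖ < Real.log s := by
    rw [lt_div_iff₀ (ADJ_p_pos m)] at h1
    linarith
  calc Real.exp (ADJ_p m * Real.log ‖w‖) < Real.exp (Real.log s) := Real.exp_lt_exp.2 h2
    _ = s := Real.exp_log hs

/-- the value on the left -/
theorem ADJ_F_left (m a : ℕ) {x : ℝ} (hx : 0 < x) : ADJ_F m a (-(x : ℂ)) =
    ((x ^ ((2 : ℝ) / ((m : ℝ) + 2)) : ℝ) : ℂ) *
      Complex.exp (2 * Real.pi * I * (a : ℂ) / ((m : ℂ) + 2)) := by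
  have h1 : Complex.log (I * -(x : ℂ)) = (Real.log x : ℂ) - Real.pi / 2 * I := by
    have h2 : I * -(x : ℂ) = (x : ℂ) * (-I) := by ring
    rw [h2, Complex.log_ofReal_mul hx (neg_ne_zero.2 I_ne_zero), Complex.log_neg_I]
    ring
  unfold ADJ_F
  rw [h1, Complex.exp_add]
  congr 1
  rw [Real.rpow_def_of_pos hx, Complex.ofReal_exp]
  congr 1
  unfold ADJ_p
  push_cast
  ring

/-- the value on the right -/
theorem ADJ_F_right (m a : ℕ) {x : ℝ} (hx : 0 < x) : ADJ_F m a (x : ℂ) =
    ((x ^ ((2 : ℝ) / ((m : ℝ) + 2)) : ℝ) : ℂ) *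
      Complex.exp (2 * Real.pi * I * ((a : ℂ) + 1) / ((m : ℂ) + 2)) := by
  have h1 : Complex.log (I * (x : ℂ)) = (Real.log x : ℂ) + Real.pi / 2 * I := by
    have h2 : I * (x : ℂ) = (x : ℂ) * I := by ring
    rw [h2, Complex.log_ofReal_mul hx I_ne_zero, Complex.log_I]
  have hm := ADJ_m2 m
  unfold ADJ_F
  rw [h1]
  have h3 : (ADJ_p m : ℂ) * ((Real.log x : ℂ) + Real.pi / 2 * I + Real.pi / 2 * I) +
      2 * Real.pi * I * (a : ℂ) / ((m : ℂ) + 2) =
      (((Real.log x * (2 / ((m : ℝ) + 2)) : ℝ)) : ℂ) +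
        2 * Real.pi * I * ((a : ℂ) + 1) / ((m : ℂ) + 2) := by
    rw [ADJ_pc]
    push_cast
    field_simp
    ring
  rw [h3, Complex.exp_add]
  congr 1
  rw [Real.rpow_def_of_pos hx, Complex.ofReal_exp]

theorem ADJ_val (m : ℕ) (a : ZMod (m + 2)) :
    Complex.exp (2 * Real.pi * I * ((a.val : ℂ) + 1) / ((m : ℂ) + 2)) =
      Complex.exp (2 * Real.pi * I * ((a + 1).val : ℂ) / ((m : ℂ) + 2)) := by
  have hm := ADJ_m2 m
  have hfact : Fact (1 < m + 2) := ⟨by omega⟩
  have h1 : (a + 1).val = (a.val + 1) % (m + 2) := by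
    rw [ZMod.val_add, ZMod.val_one]
  have h2 := Nat.div_add_mod (a.val + 1) (m + 2)
  rw [← h1] at h2
  set q := (a.val + 1) / (m + 2) with hq
  have h3 : ((a.val : ℂ) + 1) = ((m : ℂ) + 2) * q + ((a + 1).val : ℂ) := by
    have : ((((m + 2) * q + (a + 1).val : ℕ)) : ℂ) = ((a.val + 1 : ℕ) : ℂ) := by rw [h2]
    push_cast at this
    exact this.symm
  rw [h3]
  have h4 : 2 * Real.pi * I * (((m : ℂ) + 2) * q + ((a + 1).val : ℂ)) / ((m : ℂ) + 2) =
      2 * Real.pi * I * ((a + 1).val : ℂ) / ((m : ℂ) + 2) + (q : ℕ) * (2 * Real.pi * I) := by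
    field_simp
    ring
  rw [h4, Complex.exp_add, Complex.exp_nat_mul_two_pi_mul_I, mul_one]

section
variable {k : ℕ} [NeZero k]

/-- being natural is local -/
theorem ADJ_loc {b g : ZMod k → ℂ} {χ : ℂ → ℂ} {V : Set ℂ}
    (h : ∀ w ∈ V, ∃ (χ' : ℂ → ℂ) (Ω : Set ℂ), IsOpen Ω ∧ w ∈ Ω ∧ IsNat b g χ' Ω ∧
      χ =ᶠ[𝓝 w] χ') : IsNat b g χ V := by
  refine ⟨?_, ?_, ?_⟩
  · intro w hw
    obtain ⟨χ', Ω, h1, h2, h3, h4⟩ := h w hw
    exact ((h3.diff.differentiableAt (h1.mem_nhds h2)).congr_of_eventuallyEq h4).differentiableWithinAt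
  · intro w hw j
    obtain ⟨χ', Ω, h1, h2, h3, h4⟩ := h w hw
    rw [h4.eq_of_nhds]
    exact h3.av w h2 j
  · intro w hw
    obtain ⟨χ', Ω, h1, h2, h3, h4⟩ := h w hw
    rw [h4.eq_of_nhds, h4.deriv_eq]
    exact h3.eq w h2

theorem ADJ_shift {b g : ZMod k → ℂ} {χ : ℂ → ℂ} {Ω : Set ℂ} (hΩ : IsOpen Ω)
    (h : IsNat b g χ Ω) (c : ℂ) : IsNat b g (fun w => χ (w - c)) {w | w - c ∈ Ω} := by
  have hd : ∀ w, w - c ∈ Ω → HasDerivAt (fun w => χ (w - c)) (deriv χ (w - c)) w := by
    intro w hw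
    have h1 := (h.diff.differentiableAt (hΩ.mem_nhds hw)).hasDerivAt
    exact h1.comp_sub_const w c
  refine ⟨fun w hw => (hd w hw).differentiableAt.differentiableWithinAt, fun w hw j => h.av _ hw j,
    fun w hw => ?_⟩
  rw [(hd w hw).deriv]
  exact h.eq _ hw

theorem ADJ_refl {b g : ZMod k → ℂ} {χ : ℂ → ℂ} {Ω : Set ℂ} (hΩ : IsOpen Ω)
    (h : IsNat b g χ Ω) (S : ℂ) : IsNat b g (fun w => χ (S - w)) {w | S - w ∈ Ω} := by
  have hd : ∀ w, S - w ∈ Ω → HasDerivAt (fun w => χ (S - w)) (-deriv χ (S - w)) w := by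
    intro w hw
    have h1 := (h.diff.differentiableAt (hΩ.mem_nhds hw)).hasDerivAt
    exact h1.comp_const_sub S w
  refine ⟨fun w hw => (hd w hw).differentiableAt.differentiableWithinAt, fun w hw j => h.av _ hw j,
    fun w hw => ?_⟩
  rw [(hd w hw).deriv, neg_sq]
  exact h.eq _ hw

/-- the map in the neighbourhood of the zero -/
theorem ADJ_kap {b g : ZMod k → ℂ} {ζ : ℂ} {m : ℕ} {h : ℂ → ℂ} {r s : ℝ}
    (hL : LocZ b g ζ m h r s) (a : ℕ) : ∃ (κ : ℂ → ℂ) (r₁ : ℝ), 0 < r₁ ∧
      IsNat b g κ (ADJ_D ∩ ball 0 r₁) ∧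
      ∀ w ∈ ADJ_D ∩ ball 0 r₁, κ w ∈ ball ζ r ∧ h (κ w) = ADJ_F m a w := by
  obtain ⟨r₁, hr₁, hsm⟩ := ADJ_small m a hL.spos
  set gi : ℂ → ℂ := Function.invFunOn h (ball ζ r) with hgi
  have hg : ∀ z ∈ ball ζ r, gi (h z) = z := fun z hz => hL.inj.leftInvOn_invFunOn hz
  have hinv := ADJ_inv isOpen_ball hL.diff hL.inj hg
  have hF : ∀ w ∈ ADJ_D ∩ ball (0 : ℂ) r₁, ∃ z ∈ ball ζ r, h z = ADJ_F m a w := by
    intro w hw
    apply hL.surj
    rw [mem_ball_zero_iff]
    apply hsm w (ADJ_D_ne hw.1)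
    have := hw.2
    rwa [mem_ball_zero_iff] at this
  have hder : ∀ w ∈ ADJ_D ∩ ball (0 : ℂ) r₁, ∃ z ∈ ball ζ r, h z = ADJ_F m a w ∧
      gi (ADJ_F m a w) = z ∧ deriv h z ≠ 0 ∧ HasDerivAt (fun w => gi (ADJ_F m a w))
        ((deriv h z)⁻¹ * (ADJ_F m a w * ((ADJ_p m : ℂ) / w))) w := by
    intro w hw
    obtain ⟨z, hz, hzw⟩ := hF w hw
    refine ⟨z, hz, hzw, ?_, (hinv z hz).1, ?_⟩
    · rw [← hzw, hg z hz]
    · have h1 := (hinv z hz).2
      rw [hzw] at h1
      exact h1.comp w (ADJ_F_der m a hw.1)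
  refine ⟨fun w => gi (ADJ_F m a w), r₁, hr₁, ⟨?_, ?_, ?_⟩, ?_⟩
  · intro w hw
    obtain ⟨z, -, -, -, -, h1⟩ := hder w hw
    exact h1.differentiableAt.differentiableWithinAt
  · intro w hw j
    obtain ⟨z, hz, -, h2, -, -⟩ := hder w hw
    show gi (ADJ_F m a w) ≠ b j
    rw [h2]
    exact hL.av z hz j
  · intro w hw
    obtain ⟨z, hz, h1, h2, h3, h4⟩ := hder w hw
    rw [h4.deriv]
    show ((deriv h z)⁻¹ * (ADJ_F m a w * ((ADJ_p m : ℂ) / w))) ^ 2 * BB b g (gi (ADJ_F m a w)) = 1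
    rw [h2]
    have h5 := hL.eq z hz
    rw [h1] at h5
    have h6 := ADJ_F_eq m a hw.1
    have h7 : BB b g z = ((m : ℂ) + 2) ^ 2 * ADJ_F m a w ^ m * deriv h z ^ 2 / 4 := by
      rw [h5]
      ring
    rw [h7]
    have h8 : ((deriv h z)⁻¹ * (ADJ_F m a w * ((ADJ_p m : ℂ) / w))) ^ 2 *
        (((m : ℂ) + 2) ^ 2 * ADJ_F m a w ^ m * deriv h z ^ 2 / 4) =
        (((m : ℂ) + 2) ^ 2 * ADJ_F m a w ^ m * (ADJ_F m a w * ((ADJ_p m : ℂ) / w)) ^ 2) / 4 *
          ((deriv h z)⁻¹ * deriv h z) ^ 2 := by ring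
    rw [h8, h6, inv_mul_cancel₀ h3]
    norm_num
  · intro w hw
    obtain ⟨z, hz, h1, h2, -, -⟩ := hder w hw
    show gi (ADJ_F m a w) ∈ ball ζ r ∧ h (gi (ADJ_F m a w)) = ADJ_F m a w
    rw [h2]
    exact ⟨hz, h1⟩

/-- the rectangle -/
def ADJ_R (c₁ c₂ e : ℝ) : Set ℂ := {w | c₁ < w.re ∧ w.re < c₂ ∧ |w.im| < e}

theorem ADJ_R_open (c₁ c₂ e : ℝ) : IsOpen (ADJ_R c₁ c₂ e) := by
  unfold ADJ_R
  refine (isOpen_lt continuous_const Complex.continuous_re).inter
    ((isOpen_lt Complex.continuous_re continuous_const).inter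
    (isOpen_lt (continuous_abs.comp Complex.continuous_im) continuous_const))

theorem ADJ_R_conv (c₁ c₂ e : ℝ) : Convex ℝ (ADJ_R c₁ c₂ e) := by
  have h1 : ADJ_R c₁ c₂ e = ({w | c₁ < w.re} ∩ {w | w.re < c₂}) ∩ ({w | -e < w.im} ∩ {w | w.im < e}) := by
    ext w
    simp only [ADJ_R, mem_setOf_eq, mem_inter_iff, abs_lt]
    tauto
  rw [h1]
  exact ((convex_halfSpace_re_gt c₁).inter (convex_halfSpace_re_lt c₂)).inter
    ((convex_halfSpace_im_gt (-e)).inter (convex_halfSpace_im_lt e))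

/-- consequences of `Hit`: the domain near the ray, and the values near the end -/
theorem ADJ_hit {b g : ZMod k → ℂ} {ψ : ℂ → ℂ} {y T : ℝ} {ζ : ℂ} {m : ℕ} {h : ℂ → ℂ} {r : ℝ}
    {a : ZMod (m + 2)} (hH : Hit b g ψ y T ζ m h r a) :
    ∃ (χ : ℂ → ℂ) (x₁ : ℝ), 0 < x₁ ∧ (∀ x : ℝ, 0 < x → ∃ e > (0 : ℝ),
      IsNat b g χ {w | w.re < T - x ∧ |w.im - y| < e}) ∧
      IsNat b g χ (HP 0) ∧ EqOn χ (hat ψ) (HP 0) ∧
      ∀ x : ℝ, 0 < x → x < x₁ → χ ((T - x : ℝ) + y * I) ∈ ball ζ r ∧
        h (χ ((T - x : ℝ) + y * I)) = ((x ^ ((2 : ℝ) / ((m : ℝ) + 2)) : ℝ) : ℂ) *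
          Complex.exp (2 * Real.pi * I * (a.val : ℂ) / ((m : ℂ) + 2)) := by
  obtain ⟨χ, Ω, hΩ, hHP, hinv, hray, hnat, heq, hev⟩ := hH
  obtain ⟨l, hl, hl'⟩ := (mem_nhdsLT_iff_exists_Ioo_subset).1 hev
  have hlT : l < T := hl
  refine ⟨χ, T - l, by linarith, ?_, ?_, heq, ?_⟩
  · intro x hx
    have h1 := hray (T - x) (by linarith)
    obtain ⟨e, he, hb⟩ := Metric.isOpen_iff.1 hΩ _ h1
    refine ⟨e, he, ?_⟩
    have hsub : {w : ℂ | w.re < T - x ∧ |w.im - y| < e} ⊆ Ω := by
      intro w hw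
      have h2 : (((T - x : ℝ) : ℂ) + (w.im : ℂ) * I) ∈ Ω := by
        apply hb
        rw [mem_ball, dist_eq_norm]
        have h3 : ((T - x : ℝ) : ℂ) + (w.im : ℂ) * I - (((T - x : ℝ) : ℂ) + y * I) =
            ((w.im - y : ℝ) : ℂ) * I := by
          push_cast
          ring
        rw [h3, norm_mul, Complex.norm_I, mul_one, Complex.norm_real]
        exact hw.2
      have h3 := hinv _ h2 (T - x - w.re) (by linarith [hw.1])
      have h4 : ((T - x : ℝ) : ℂ) + (w.im : ℂ) * I - ((T - x - w.re : ℝ) : ℂ) = w := by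
        apply Complex.ext
        · simp
        · simp
      rw [h4] at h3
      exact h3
    exact ⟨hnat.diff.mono hsub, fun w hw => hnat.av w (hsub hw), fun w hw => hnat.eq w (hsub hw)⟩
  · exact ⟨hnat.diff.mono hHP, fun w hw => hnat.av w (hHP hw), fun w hw => hnat.eq w (hHP hw)⟩
  · intro x hx hx'
    have h1 : (T - x) ∈ Ioo l T := ⟨by linarith, by linarith⟩
    have h2 := hl' h1
    have h3 : T - (T - x) = x := by ring
    simp only [mem_setOf_eq] at h2
    rw [h3] at h2
    exact h2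

theorem ADJ : ADJ_stmt := by
  intro k _ b g ψ hFam i l y y' T T' ζ m h r s a hL hT hT' hi hl
  obtain ⟨χi, x1, hx1, hΩi, hni, hei, hvi⟩ := ADJ_hit hi
  obtain ⟨χl, x2, hx2, hΩl, hnl, hel, hvl⟩ := ADJ_hit hl
  obtain ⟨κ, r₁, hr₁, hκn, hκ⟩ := ADJ_kap hL a.val
  -- the size
  obtain ⟨x0, hx0, hx01, hx02, hx0r⟩ : ∃ x0 : ℝ, 0 < x0 ∧ x0 < x1 ∧ x0 < x2 ∧ x0 < r₁ / 2 := by
    refine ⟨min (min x1 x2) (r₁ / 2) / 2, by positivity, ?_, ?_, ?_⟩
    · have h1 : min (min x1 x2) (r₁ / 2) ≤ x1 := (min_le_left _ _).trans (min_le_left _ _)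
      linarith
    · have h1 : min (min x1 x2) (r₁ / 2) ≤ x2 := (min_le_left _ _).trans (min_le_right _ _)
      linarith
    · have h1 : min (min x1 x2) (r₁ / 2) ≤ r₁ / 2 := min_le_right _ _
      linarith
  obtain ⟨e1, he1, hN1⟩ := hΩi (x0 / 2) (by positivity)
  obtain ⟨e2, he2, hN2⟩ := hΩl (x0 / 2) (by positivity)
  set e : ℝ := min (min e1 e2) (r₁ / 2) with he
  have he0 : 0 < e := by positivity
  have hee1 : e ≤ e1 := (min_le_left _ _).trans (min_le_left _ _)
  have hee2 : e ≤ e2 := (min_le_left _ _).trans (min_le_right _ _)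
  have her : e ≤ r₁ / 2 := min_le_right _ _
  set w0 : ℂ := (T : ℂ) + y * I with hw0
  set S : ℂ := ((T + T' : ℝ) : ℂ) + ((y + y' : ℝ) : ℂ) * I with hS
  have hw0re : w0.re = T := by simp [hw0]
  have hw0im : w0.im = y := by simp [hw0]
  have hSre : S.re = T + T' := by simp [hS]
  have hSim : S.im = y + y' := by simp [hS]
  have hball : ∀ w : ℂ, |w.re| < x0 → |w.im| < e → w ∈ ball (0 : ℂ) r₁ := by
    intro w h1 h2
    rw [mem_ball_zero_iff]
    have := Complex.norm_le_abs_re_add_abs_im w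
    linarith
  have hopen1 : IsOpen {w : ℂ | w.re < T - x0 / 2 ∧ |w.im - y| < e1} :=
    (isOpen_lt Complex.continuous_re continuous_const).inter
      (isOpen_lt (continuous_abs.comp (Complex.continuous_im.sub continuous_const))
        continuous_const)
  have hopen2 : IsOpen {w : ℂ | w.re < T' - x0 / 2 ∧ |w.im - y'| < e2} :=
    (isOpen_lt Complex.continuous_re continuous_const).inter
      (isOpen_lt (continuous_abs.comp (Complex.continuous_im.sub continuous_const))
        continuous_const)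
  have hopenκ : IsOpen (ADJ_D ∩ ball (0 : ℂ) r₁) := ADJ_D_open.inter isOpen_ball
  -- agreement on the left
  have hagL : ∀ w : ℂ, -x0 < w.re → w.re < -(x0 / 2) → |w.im| < e → χi (w + w0) = κ w := by
    have h1 : EqOn (fun w => χi (w + w0)) κ (ADJ_R (-x0) (-(x0 / 2)) e) := by
      have hz : (((-(3 / 4 * x0) : ℝ)) : ℂ) ∈ ADJ_R (-x0) (-(x0 / 2)) e := by
        refine ⟨?_, ?_, ?_⟩
        · rw [Complex.ofReal_re]
          linarith
        · rw [Complex.ofReal_re]
          linarith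
        · rw [Complex.ofReal_im, abs_zero]
          exact he0
      refine ADJ_id2 (ADJ_R_open _ _ _) (ADJ_R_conv _ _ _).isPreconnected ?_ ?_ hz ?_
      · intro w hw
        have h2 : w + w0 ∈ {w : ℂ | w.re < T - x0 / 2 ∧ |w.im - y| < e1} := by
          refine ⟨?_, ?_⟩
          · rw [Complex.add_re, hw0re]
            linarith [hw.2.1]
          · rw [Complex.add_im, hw0im, add_sub_cancel_right]
            exact lt_of_lt_of_le hw.2.2 hee1
        have h3 := (hN1.diff.differentiableAt (hopen1.mem_nhds h2)).hasDerivAt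
        exact (h3.comp_add_const w w0).differentiableAt.differentiableWithinAt
      · intro w hw
        have h2 : w ∈ ADJ_D ∩ ball (0 : ℂ) r₁ := by
          refine ⟨ADJ_D_re ?_, hball w ?_ hw.2.2⟩
          · have := hw.2.1
            intro h0
            rw [h0] at this
            linarith
          · rw [abs_lt]
            exact ⟨hw.1, by linarith [hw.2.1]⟩
        exact (hκn.diff.differentiableAt (hopenκ.mem_nhds h2)).differentiableWithinAt
      · have h2 : ∀ᶠ t : ℝ in 𝓝 0, |t| < x0 / 4 := by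
          have := Metric.ball_mem_nhds (0 : ℝ) (show 0 < x0 / 4 by positivity)
          filter_upwards [this] with t ht
          rwa [mem_ball, Real.dist_eq, sub_zero] at ht
        filter_upwards [h2] with t ht
        rw [abs_lt] at ht
        set x : ℝ := 3 / 4 * x0 - t with hx
        have hx0' : 0 < x := by linarith
        have hx1' : x < x0 := by linarith
        have e3 : (((-(3 / 4 * x0) : ℝ)) : ℂ) + (t : ℂ) = -(x : ℂ) := by
          rw [hx]
          push_cast
          ring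
        have e4 : -(x : ℂ) + w0 = ((T - x : ℝ) : ℂ) + y * I := by
          rw [hw0]
          push_cast
          ring
        have h3 := hvi x hx0' (by linarith)
        have h4 : -(x : ℂ) ∈ ADJ_D ∩ ball (0 : ℂ) r₁ := by
          refine ⟨ADJ_D_re ?_, hball _ ?_ ?_⟩
          · rw [Complex.neg_re, Complex.ofReal_re]
            linarith
          · rw [Complex.neg_re, Complex.ofReal_re, abs_neg, abs_of_pos hx0']
            exact hx1'
          · rw [Complex.neg_im, Complex.ofReal_im, neg_zero, abs_zero]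
            exact he0
        have h5 := hκ _ h4
        rw [e3]
        show χi (-(x : ℂ) + w0) = κ (-(x : ℂ))
        rw [e4]
        apply hL.inj h3.1 h5.1
        rw [h3.2, h5.2, ADJ_F_left m a.val hx0']
    intro w h2 h3 h4
    exact h1 ⟨h2, h3, h4⟩
  -- agreement on the right
  have hagR : ∀ w : ℂ, x0 / 2 < w.re → w.re < x0 → |w.im| < e → χl (S - w0 - w) = κ w := by
    have hSw : S - w0 = (T' : ℂ) + y' * I := by
      rw [hS, hw0]
      push_cast
      ring
    have h1 : EqOn (fun w => χl (S - w0 - w)) κ (ADJ_R (x0 / 2) x0 e) := by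
      have hz : (((3 / 4 * x0 : ℝ)) : ℂ) ∈ ADJ_R (x0 / 2) x0 e := by
        refine ⟨?_, ?_, ?_⟩
        · rw [Complex.ofReal_re]
          linarith
        · rw [Complex.ofReal_re]
          linarith
        · rw [Complex.ofReal_im, abs_zero]
          exact he0
      refine ADJ_id2 (ADJ_R_open _ _ _) (ADJ_R_conv _ _ _).isPreconnected ?_ ?_ hz ?_
      · intro w hw
        have h2 : S - w0 - w ∈ {w : ℂ | w.re < T' - x0 / 2 ∧ |w.im - y'| < e2} := by
          rw [hSw]
          refine ⟨?_, ?_⟩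
          · simp only [Complex.sub_re, Complex.add_re, Complex.ofReal_re, Complex.mul_re, I_re,
              Complex.ofReal_im, I_im]
            linarith [hw.1]
          · have : ((T' : ℂ) + y' * I - w).im - y' = -w.im := by
              simp
            rw [this, abs_neg]
            exact lt_of_lt_of_le hw.2.2 hee2
        have h3 := (hN2.diff.differentiableAt (hopen2.mem_nhds h2)).hasDerivAt
        exact (h3.comp_const_sub (S - w0) w).differentiableAt.differentiableWithinAt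
      · intro w hw
        have h2 : w ∈ ADJ_D ∩ ball (0 : ℂ) r₁ := by
          refine ⟨ADJ_D_re ?_, hball w ?_ hw.2.2⟩
          · have := hw.1
            intro h0
            rw [h0] at this
            linarith
          · rw [abs_lt]
            exact ⟨by linarith [hw.1], hw.2.1⟩
        exact (hκn.diff.differentiableAt (hopenκ.mem_nhds h2)).differentiableWithinAt
      · have h2 : ∀ᶠ t : ℝ in 𝓝 0, |t| < x0 / 4 := by
          have := Metric.ball_mem_nhds (0 : ℝ) (show 0 < x0 / 4 by positivity)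
          filter_upwards [this] with t ht
          rwa [mem_ball, Real.dist_eq, sub_zero] at ht
        filter_upwards [h2] with t ht
        rw [abs_lt] at ht
        set x : ℝ := 3 / 4 * x0 + t with hx
        have hx0' : 0 < x := by linarith
        have hx1' : x < x0 := by linarith
        have e3 : (((3 / 4 * x0 : ℝ)) : ℂ) + (t : ℂ) = (x : ℂ) := by
          rw [hx]
          push_cast
          ring
        have e4 : S - w0 - (x : ℂ) = ((T' - x : ℝ) : ℂ) + y' * I := by
          rw [hSw]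
          push_cast
          ring
        have h3 := hvl x hx0' (by linarith)
        have h4 : (x : ℂ) ∈ ADJ_D ∩ ball (0 : ℂ) r₁ := by
          refine ⟨ADJ_D_re ?_, hball _ ?_ ?_⟩
          · rw [Complex.ofReal_re]
            exact hx0'.ne'
          · rw [Complex.ofReal_re, abs_of_pos hx0']
            exact hx1'
          · rw [Complex.ofReal_im, abs_zero]
            exact he0
        have h5 := hκ _ h4
        rw [e3]
        show χl (S - w0 - (x : ℂ)) = κ (x : ℂ)
        rw [e4]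
        apply hL.inj h3.1 h5.1
        rw [h3.2, h5.2, ADJ_F_right m a.val hx0', ADJ_val]
    intro w h2 h3 h4
    exact h1 ⟨h2, h3, h4⟩
  -- the map
  set χ : ℂ → ℂ := fun w => if w.re < T - 3 / 4 * x0 then χi w else
    if w.re < T + 3 / 4 * x0 then κ (w - w0) else χl (S - w) with hχ
  have hA : ∀ w : ℂ, y - e < w.im → w.im < y → w.re < T - x0 / 2 → χ w = χi w := by
    intro w h1 h2 h3
    by_cases h4 : w.re < T - 3 / 4 * x0
    · simp only [hχ]
      rw [if_pos h4]
    · have h5 : w.re < T + 3 / 4 * x0 := by linarith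
      simp only [hχ]
      rw [if_neg h4, if_pos h5]
      push Not at h4
      rw [← hagL (w - w0) (by rw [Complex.sub_re, hw0re]; linarith)
        (by rw [Complex.sub_re, hw0re]; linarith)
        (by rw [Complex.sub_im, hw0im, abs_lt]; constructor <;> linarith), sub_add_cancel]
  have hC : ∀ w : ℂ, y - e < w.im → w.im < y → T + x0 / 2 < w.re → χ w = χl (S - w) := by
    intro w h1 h2 h3
    have h4 : ¬ w.re < T - 3 / 4 * x0 := by linarith
    by_cases h5 : w.re < T + 3 / 4 * x0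
    · simp only [hχ]
      rw [if_neg h4, if_pos h5]
      rw [← hagR (w - w0) (by rw [Complex.sub_re, hw0re]; linarith)
        (by rw [Complex.sub_re, hw0re]; linarith)
        (by rw [Complex.sub_im, hw0im, abs_lt]; constructor <;> linarith)]
      congr 1
      ring
    · simp only [hχ]
      rw [if_neg h4, if_neg h5]
  have hB : ∀ w : ℂ, y - e < w.im → w.im < y → T - x0 < w.re → w.re < T + x0 →
      χ w = κ (w - w0) := by
    intro w h1 h2 h3 h4
    have him : |(w - w0).im| < e := by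
      rw [Complex.sub_im, hw0im, abs_lt]
      constructor <;> linarith
    by_cases h5 : w.re < T - 3 / 4 * x0
    · rw [hA w h1 h2 (by linarith)]
      rw [← hagL (w - w0) (by rw [Complex.sub_re, hw0re]; linarith)
        (by rw [Complex.sub_re, hw0re]; linarith) him, sub_add_cancel]
    · by_cases h6 : w.re < T + 3 / 4 * x0
      · simp only [hχ]
        rw [if_neg h5, if_pos h6]
      · rw [hC w h1 h2 (by linarith)]
        rw [← hagR (w - w0) (by rw [Complex.sub_re, hw0re]; linarith)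
          (by rw [Complex.sub_re, hw0re]; linarith) him]
        congr 1
        ring
  -- natural
  have hV : ∀ w : ℂ, y - e < w.im → w.im < y →
      ∀ᶠ v : ℂ in 𝓝 w, y - e < v.im ∧ v.im < y := by
    intro w h1 h2
    exact (Complex.continuous_im.continuousAt.eventually (lt_mem_nhds h1)).and
      (Complex.continuous_im.continuousAt.eventually (gt_mem_nhds h2))
  have hnat : IsNat b g χ {w | y - e < w.im ∧ w.im < y} := by
    apply ADJ_loc
    intro w hw
    obtain ⟨hw1, hw2⟩ := hw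
    by_cases h1 : w.re < T - x0 / 2
    · refine ⟨χi, _, hopen1, ⟨h1, ?_⟩, hN1, ?_⟩
      · rw [abs_lt]
        constructor <;> linarith
      · filter_upwards [hV w hw1 hw2,
          Complex.continuous_re.continuousAt.eventually (gt_mem_nhds h1)] with v hv hv'
        exact hA v hv.1 hv.2 hv'
    · by_cases h2 : T + x0 / 2 < w.re
      · refine ⟨fun v => χl (S - v), {v | S - v ∈ {w : ℂ | w.re < T' - x0 / 2 ∧ |w.im - y'| < e2}},
          hopen2.preimage (by fun_prop : Continuous fun v : ℂ => S - v), ?_,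
          ADJ_refl hopen2 hN2 S, ?_⟩
        · refine ⟨?_, ?_⟩
          · rw [Complex.sub_re, hSre]
            linarith
          · rw [Complex.sub_im, hSim, abs_lt]
            constructor <;> linarith
        · filter_upwards [hV w hw1 hw2,
            Complex.continuous_re.continuousAt.eventually (lt_mem_nhds h2)] with v hv hv'
          exact hC v hv.1 hv.2 hv'
      · push Not at h1 h2
        refine ⟨fun v => κ (v - w0), {v | v - w0 ∈ ADJ_D ∩ ball (0 : ℂ) r₁},
          hopenκ.preimage (by fun_prop : Continuous fun v : ℂ => v - w0), ?_,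
          ADJ_shift hopenκ hκn w0, ?_⟩
        · refine ⟨ADJ_D_im ?_, hball _ ?_ ?_⟩
          · rw [Complex.sub_im, hw0im]
            linarith
          · rw [Complex.sub_re, hw0re, abs_lt]
            constructor <;> linarith
          · rw [Complex.sub_im, hw0im, abs_lt]
            constructor <;> linarith
        · have h3 : T - x0 < w.re := by linarith
          have h4 : w.re < T + x0 := by linarith
          filter_upwards [hV w hw1 hw2,
            Complex.continuous_re.continuousAt.eventually (lt_mem_nhds h3),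
            Complex.continuous_re.continuousAt.eventually (gt_mem_nhds h4)] with v hv hv' hv''
          exact hB v hv.1 hv.2 hv' hv''
  refine ⟨e, he0, χ, hnat, ?_, ?_⟩
  · intro w h1 h2 h3
    set U : Set ℂ := ({w | w.re < 0}) ∩ ({w | y - e < w.im} ∩ {w | w.im < y}) with hU
    have hUo : IsOpen U := (isOpen_lt Complex.continuous_re continuous_const).inter
      ((isOpen_lt continuous_const Complex.continuous_im).inter
        (isOpen_lt Complex.continuous_im continuous_const))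
    have hUc : Convex ℝ U := (convex_halfSpace_re_lt 0).inter
      ((convex_halfSpace_im_gt (y - e)).inter (convex_halfSpace_im_lt y))
    have hd1 : DifferentiableOn ℂ χ U := hnat.diff.mono fun v hv => ⟨hv.2.1, hv.2.2⟩
    have hd2 : DifferentiableOn ℂ χi U := hni.diff.mono fun v hv => by
      show v.re < -0
      rw [neg_zero]
      exact hv.1
    set c : ℝ := min 0 (T - x0 / 2) - 1 with hc
    have hc1 : c < 0 := by
      have := min_le_left 0 (T - x0 / 2)
      linarith
    have hc2 : c < T - x0 / 2 := by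
      have := min_le_right 0 (T - x0 / 2)
      linarith
    have hz : ((c : ℂ) + ((y - e / 2 : ℝ) : ℂ) * I) ∈ U := by
      refine ⟨?_, ?_, ?_⟩
      · show ((c : ℂ) + ((y - e / 2 : ℝ) : ℂ) * I).re < 0
        simp only [Complex.add_re, Complex.ofReal_re, Complex.mul_re, I_re, Complex.ofReal_im, I_im]
        linarith
      · show y - e < ((c : ℂ) + ((y - e / 2 : ℝ) : ℂ) * I).im
        simp only [Complex.add_im, Complex.ofReal_re, Complex.mul_im, I_re, Complex.ofReal_im, I_im]
        linarith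
      · show ((c : ℂ) + ((y - e / 2 : ℝ) : ℂ) * I).im < y
        simp only [Complex.add_im, Complex.ofReal_re, Complex.mul_im, I_re, Complex.ofReal_im, I_im]
        linarith
    have hev : χ =ᶠ[𝓝 ((c : ℂ) + ((y - e / 2 : ℝ) : ℂ) * I)] χi := by
      have h4 : ((c : ℂ) + ((y - e / 2 : ℝ) : ℂ) * I).re < T - x0 / 2 := by
        simp only [Complex.add_re, Complex.ofReal_re, Complex.mul_re, I_re, Complex.ofReal_im, I_im]
        linarith
      filter_upwards [hUo.mem_nhds hz,
        Complex.continuous_re.continuousAt.eventually (gt_mem_nhds h4)] with v hv hv'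
      exact hA v hv.2.1 hv.2.2 hv'
    have h5 := ADJ_id1 hUo hUc.isPreconnected hd1 hd2 hz hev
    have h6 : w ∈ U := ⟨h3, h1, h2⟩
    rw [h5 h6]
    apply hei
    show w.re < -0
    rw [neg_zero]
    exact h3
  · intro w h1 h2 h3
    rw [hSre] at h3
    set U : Set ℂ := ({w | T + T' < w.re}) ∩ ({w | y - e < w.im} ∩ {w | w.im < y}) with hU
    have hUo : IsOpen U := (isOpen_lt continuous_const Complex.continuous_re).inter
      ((isOpen_lt continuous_const Complex.continuous_im).inter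
        (isOpen_lt Complex.continuous_im continuous_const))
    have hUc : Convex ℝ U := (convex_halfSpace_re_gt (T + T')).inter
      ((convex_halfSpace_im_gt (y - e)).inter (convex_halfSpace_im_lt y))
    have hd1 : DifferentiableOn ℂ χ U := hnat.diff.mono fun v hv => ⟨hv.2.1, hv.2.2⟩
    have hHPo : IsOpen (HP 0) := by
      unfold HP
      exact isOpen_lt Complex.continuous_re continuous_const
    have hd2 : DifferentiableOn ℂ (fun v => χl (S - v)) U :=
      (ADJ_refl hHPo hnl S).diff.mono fun v hv => by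
        show (S - v).re < -0
        rw [neg_zero, Complex.sub_re, hSre]
        have h4 : T + T' < v.re := hv.1
        linarith
    set c : ℝ := T + T' + x0 with hc
    have hz : ((c : ℂ) + ((y - e / 2 : ℝ) : ℂ) * I) ∈ U := by
      refine ⟨?_, ?_, ?_⟩
      · show T + T' < ((c : ℂ) + ((y - e / 2 : ℝ) : ℂ) * I).re
        simp only [Complex.add_re, Complex.ofReal_re, Complex.mul_re, I_re, Complex.ofReal_im, I_im]
        linarith
      · show y - e < ((c : ℂ) + ((y - e / 2 : ℝ) : ℂ) * I).im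
        simp only [Complex.add_im, Complex.ofReal_re, Complex.mul_im, I_re, Complex.ofReal_im, I_im]
        linarith
      · show ((c : ℂ) + ((y - e / 2 : ℝ) : ℂ) * I).im < y
        simp only [Complex.add_im, Complex.ofReal_re, Complex.mul_im, I_re, Complex.ofReal_im, I_im]
        linarith
    have hev : χ =ᶠ[𝓝 ((c : ℂ) + ((y - e / 2 : ℝ) : ℂ) * I)] fun v => χl (S - v) := by
      have h4 : T + x0 / 2 < ((c : ℂ) + ((y - e / 2 : ℝ) : ℂ) * I).re := by
        simp only [Complex.add_re, Complex.ofReal_re, Complex.mul_re, I_re, Complex.ofReal_im, I_im]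
        linarith
      filter_upwards [hUo.mem_nhds hz,
        Complex.continuous_re.continuousAt.eventually (lt_mem_nhds h4)] with v hv hv'
      exact hC v hv.2.1 hv.2.2 hv'
    have h5 := ADJ_id1 hUo hUc.isPreconnected hd1 hd2 hz hev
    have h6 : w ∈ U := ⟨h3, h1, h2⟩
    rw [h5 h6]
    apply hel
    show (S - w).re < -0
    rw [neg_zero, Complex.sub_re, hSre]
    linarith

end

end MQ
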